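import Mathlib
import Pool.Agent.H.MP_888150_co.B

namespace Pool.Agent.Results.MP_888150_co.Bound

theorem result (V : Type) [Fintype V] (G : SimpleGraph V) (hG : G.Connected)
    (hn : 2 ≤ Fintype.card V) :
    ∃ f : V → ℕ, (∀ v, f v ≤ G.diam) ∧
      (∀ u, ∃ v₁ v₂, v₁ ≠ v₂ ∧ 0 < f v₁ ∧ 0 < f v₂ ∧ G.dist u v₁ ≤ f v₁ ∧ G.dist u v₂ ≤ f v₂) ∧
      3 * ∑ v, f v ≤ 2 * Fintype.card V + 4 :=
  Pool.Agent.H.MP_888150_co.main hG hn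

end Pool.Agent.Results.MP_888150_co.Bound
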